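import Pool.Agent.helper27.SY.Spec

set_option autoImplicit false

namespace Pool.Agent.SY

open Finset ArithmeticFunction Pool.Agent.SX Pool.Agent.helper85.BVP

theorem CHF_frc {β : Type} (n : ℕ) (f : ℕ → β) : frc n f = f n := by
  cases n <;> rfl

theorem CHF_cdiv (x y : ℕ) (hy : 0 < y) : (x : ℝ) / y ≤ (cdiv x y : ℝ) := by
  rw [div_le_iff₀ (by exact_mod_cast hy)]
  have h : x ≤ cdiv x y * y := by
    unfold cdiv
    have h1 := Nat.div_add_mod (x + (y - 1)) y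
    have h2 := Nat.mod_lt (x + (y - 1)) hy
    rw [mul_comm]
    omega
  exact_mod_cast h

/-- `log r ≤ (r - 1 / r) / 2`. -/
theorem CHF_log (t s : ℝ) (ht : 0 < t) (hts : t ≤ s) :
    Real.log (s / t) ≤ (s ^ 2 - t ^ 2) / (2 * t * s) := by
  have hs : 0 < s := lt_of_lt_of_le ht hts
  have h1 : 0 ≤ Real.log (s / t) := Real.log_nonneg (by rw [le_div_iff₀ ht]; linarith)
  have h2 := Real.self_le_sinh_iff.mpr h1
  rw [Real.sinh_eq, Real.exp_neg, Real.exp_log (by positivity)] at h2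
  refine h2.trans (le_of_eq ?_)
  field_simp

theorem CHF_wH (hSAD : SAD_stmt) (w t s Y p : ℕ) (hw : 1 ≤ w) (hY : 1 ≤ Y)
    (hp : p ∈ Bl (t * w) (s * w)) : wH (Y * w) p ≤ 1 - (t : ℝ) / Y := by
  obtain ⟨hpp, h7, hlo, hhi⟩ := (hSAD.2.1 _ _ _).1 hp
  have hw0 : (0 : ℝ) < w := by exact_mod_cast hw
  have hY0 : (0 : ℝ) < Y := by exact_mod_cast hY
  have hlog : 0 < Real.log 2 := Real.log_pos (by norm_num)
  have h2 : ((t : ℝ) * w) * Real.log 2 ≤ 10 * Real.log p := by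
    have h3 : ((2 : ℝ) ^ (t * w)) ≤ (p : ℝ) ^ 10 := by exact_mod_cast hlo
    have h4 := Real.log_le_log (by positivity) h3
    rw [Real.log_pow, Real.log_pow] at h4
    push_cast at h4
    exact h4
  unfold wH
  have h5 : (t : ℝ) / Y ≤ Real.log p / (((Y * w : ℕ) : ℝ) * (Real.log 2 / 10)) := by
    push_cast
    rw [div_le_div_iff₀ hY0 (by positivity)]
    nlinarith
  linarith

theorem CHF_split (hSAD : SAD_stmt) (h h' h'' : ℕ) (h1 : h ≤ h') (h2 : h' ≤ h'') (f : ℕ → ℝ) :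
    ∑ p ∈ Bl h h'', f p = ∑ p ∈ Bl h h', f p + ∑ p ∈ Bl h' h'', f p := by
  have e1 : (2 : ℕ) ^ h ≤ 2 ^ h' := Nat.pow_le_pow_right (by norm_num) h1
  have e2 : (2 : ℕ) ^ h' ≤ 2 ^ h'' := Nat.pow_le_pow_right (by norm_num) h2
  rw [← Finset.sum_union]
  · refine Finset.sum_congr ?_ fun _ _ => rfl
    ext p
    rw [Finset.mem_union, hSAD.2.1, hSAD.2.1, hSAD.2.1]
    constructor
    · rintro ⟨a1, a2, a3, a4⟩
      rcases lt_or_ge (p ^ 10) (2 ^ h') with h5 | h5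
      · exact Or.inl ⟨a1, a2, a3, h5⟩
      · exact Or.inr ⟨a1, a2, h5, a4⟩
    · rintro (⟨a1, a2, a3, a4⟩ | ⟨a1, a2, a3, a4⟩)
      · exact ⟨a1, a2, a3, lt_of_lt_of_le a4 e2⟩
      · exact ⟨a1, a2, e1.trans a3, a4⟩
  · rw [Finset.disjoint_left]
    intro p hp hp'
    rw [hSAD.2.1] at hp hp'
    exact absurd hp.2.2.2 (not_lt.mpr hp'.2.2.1)

theorem CHF_blocks (hSAD : SAD_stmt) (w a Y : ℕ) (haY : a < Y) (f : ℕ → ℝ) :
    ∀ m, m ≤ (Y - a + 2) / 3 →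
      ∑ j ∈ range m, ∑ p ∈ Bl ((a + 3 * j) * w) (min (a + 3 * j + 3) Y * w), f p =
        ∑ p ∈ Bl (a * w) (min (a + 3 * m) Y * w), f p := by
  intro m
  induction m with
  | zero =>
    intro _
    have h1 : min (a + 3 * 0) Y = a := by omega
    rw [h1]
    simp [Bl]
  | succ m ih =>
    intro hm
    rw [Finset.sum_range_succ, ih (by omega)]
    have h1 : min (a + 3 * m) Y = a + 3 * m := by omega
    have h2 : min (a + 3 * (m + 1)) Y = min (a + 3 * m + 3) Y := by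
      congr 1
    rw [h1, h2, ← CHF_split hSAD]
    · exact Nat.mul_le_mul_right w (by omega)
    · exact Nat.mul_le_mul_right w (by omega)

theorem CHF_m2t (a Y B U j : ℕ) (ha : 60 ≤ a) (haY : a < Y) (hj : j < (Y - a + 2) / 3) :
    ((((min (a + 3 * j + 3) Y : ℕ) : ℝ) ^ 2 - ((a + 3 * j : ℕ) : ℝ) ^ 2) /
        (2 * ((a + 3 * j : ℕ) : ℝ) * ((min (a + 3 * j + 3) Y : ℕ) : ℝ)) + 1 / 100000) *
      (1 - ((a + 3 * j : ℕ) : ℝ) / Y) * (dig U (B - min (a + 3 * j + 3) Y) : ℝ) ≤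
      (m2t U a Y B j : ℝ) := by
  have ht1 : a + 3 * j < Y := by omega
  have ht2 : a + 3 * j < min (a + 3 * j + 3) Y := by omega
  unfold m2t
  rw [CHF_frc, CHF_frc]
  generalize hD : dig U (B - min (a + 3 * j + 3) Y) = D
  generalize hs : min (a + 3 * j + 3) Y = s at ht2 ⊢
  generalize ht : a + 3 * j = t at ht1 ht2 ⊢
  have ht0 : 60 ≤ t := by omega
  have hb : Nat.blt t Y = true := by
    rw [Nat.blt_eq]
    exact ht1
  rw [hb, cond_true]
  have t00 : 0 < t := by omega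
  have s00 : 0 < s := by omega
  have Y00 : 0 < Y := by omega
  have hden : 0 < 2 * t * s * 100000 * Y := by positivity
  refine le_trans (le_of_eq ?_) (CHF_cdiv _ _ hden)
  have h1 : t ^ 2 ≤ s ^ 2 := Nat.pow_le_pow_left ht2.le 2
  have t0 : (t : ℝ) ≠ 0 := by
    have : (0 : ℝ) < t := by exact_mod_cast (by omega : 0 < t)
    exact this.ne'
  have s0 : (s : ℝ) ≠ 0 := by
    have : (0 : ℝ) < s := by exact_mod_cast (by omega : 0 < s)
    exact this.ne'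
  have Y0 : (Y : ℝ) ≠ 0 := by
    have : (0 : ℝ) < Y := by exact_mod_cast (by omega : 0 < Y)
    exact this.ne'
  push_cast [Nat.cast_sub h1, Nat.cast_sub ht1.le]
  field_simp

theorem CHF_small (x : ℝ) (hx : 60 * 2 ^ 15 ≤ x) : 1090 / 1000 * (14.4269505 / x) ≤ 1 / 100000 := by
  have hx0 : 0 < x := by linarith
  rw [← mul_div_assoc, div_le_div_iff₀ hx0 (by norm_num)]
  norm_num at hx ⊢
  linarith

theorem CHF (hSAD : SAD_stmt) (hSIG : SIG_stmt) (hDIR : DIR_stmt) (hLPM : LPM_stmt)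
    (hPCM : PCM_stmt) : CHF_stmt := by
  intro w a Y B lam L U bn bd hw ha haY hbn hbd hchk
  unfold chkF at hchk
  rw [Bool.and_eq_true, Bool.and_eq_true, hPCM.2.1] at hchk
  obtain ⟨h1, h2, h3⟩ := hchk
  have hB : a + Y ≤ B := Nat.le_of_ble_eq_true h1
  refine ⟨hB, ?_⟩
  have hlam := hPCM.2.2.2 Y a lam (by omega) (by omega) h2
  have h4 := Nat.le_of_ble_eq_true h3
  simp only [zero_add] at h4
  set n : ℕ := (Y - a + 2) / 3 with hn
  set s : ℕ := ∑ j ∈ range n, m2t U a Y B j with hs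
  have hw0 : (0 : ℝ) < w := by
    have : 0 < w := by omega
    exact_mod_cast this
  have hwR : (2 : ℝ) ^ 15 ≤ w := by exact_mod_cast hw
  have haR : (60 : ℝ) ≤ a := by exact_mod_cast ha
  have ha0 : (0 : ℝ) < a := by linarith
  have haYR : (a : ℝ) < Y := by exact_mod_cast haY
  have hY0 : (0 : ℝ) < Y := by linarith
  have hbn0 : (0 : ℝ) < bn := by exact_mod_cast hbn
  have hbd0 : (0 : ℝ) < bd := by exact_mod_cast hbd
  -- the first sum
  have hW : ∑ j ∈ range n, ∑ p ∈ Bl ((a + 3 * j) * w) (min (a + 3 * j + 3) Y * w),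
      2 / (p : ℝ) * wH (Y * w) p ≤ 2 * ((lam : ℝ) / 10 ^ 9 - 1 + (a : ℝ) / Y + 1 / 10 ^ 4) := by
    rw [CHF_blocks hSAD w a Y haY (fun p => 2 / (p : ℝ) * wH (Y * w) p) n le_rfl]
    have e1 : min (a + 3 * n) Y = Y := by omega
    rw [e1]
    have e2 : 180 ≤ a * w := by
      calc 180 ≤ 60 * 2 ^ 15 := by norm_num
        _ ≤ a * w := Nat.mul_le_mul ha hw
    have e3 : a * w ≤ Y * w := Nat.mul_le_mul_right w haY.le
    have e4 := hDIR 1 (1090 / 1000) (by norm_num) (by norm_num) hLPM (a * w) (Y * w) e2 e3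
    have e5 : ∑ p ∈ Bl (a * w) (Y * w), 2 / (p : ℝ) * wH (Y * w) p =
        2 * ∑ p ∈ Bl (a * w) (Y * w),
          1 / (p : ℝ) * (1 - Real.log p / (((Y * w : ℕ) : ℝ) * (Real.log 2 / 10))) := by
      rw [Finset.mul_sum]
      refine Finset.sum_congr rfl fun p _ => ?_
      unfold wH
      ring
    rw [e5]
    refine mul_le_mul_of_nonneg_left (e4.trans ?_) (by norm_num)
    have e6 : (((Y * w : ℕ) : ℝ) / ((a * w : ℕ) : ℝ)) = (Y : ℝ) / a := by
      push_cast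
      exact mul_div_mul_right _ _ hw0.ne'
    have e7 : (((a * w : ℕ) : ℝ) / ((Y * w : ℕ) : ℝ)) = (a : ℝ) / Y := by
      push_cast
      exact mul_div_mul_right _ _ hw0.ne'
    rw [e6, e7]
    have e8 : (60 : ℝ) * 2 ^ 15 ≤ ((a * w : ℕ) : ℝ) := by
      push_cast
      exact mul_le_mul haR hwR (by norm_num) ha0.le
    have e9 := CHF_small _ e8
    have e10 : 0 ≤ (a : ℝ) / Y := by positivity
    have e11 : (0 : ℝ) ≤ 1090 / 1000 * (14.4269505 / ((a * w : ℕ) : ℝ)) := by positivity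
    have e12 : 1090 / 1000 * (1 - (a : ℝ) / Y) * (14.4269505 / ((a * w : ℕ) : ℝ)) ≤
        1090 / 1000 * (14.4269505 / ((a * w : ℕ) : ℝ)) := by
      nlinarith [mul_nonneg e10 e11]
    have e13 : (1 : ℝ) / 100000 ≤ 1 / 10 ^ 4 := by norm_num
    linarith
  -- the second sum
  have hV : ∀ j ∈ range n, (dig U (B - min (a + 3 * j + 3) Y) : ℝ) / 2 ^ 40 *
      ∑ p ∈ Bl ((a + 3 * j) * w) (min (a + 3 * j + 3) Y * w), 2 / (p : ℝ) * wH (Y * w) p ≤
      2 * ((m2t U a Y B j : ℝ) / 2 ^ 40) := by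
    intro j hj
    rw [Finset.mem_range] at hj
    have hm := CHF_m2t a Y B U j ha haY hj
    have ht1 : a + 3 * j < Y := by omega
    have ht2 : a + 3 * j < min (a + 3 * j + 3) Y := by omega
    generalize hD : dig U (B - min (a + 3 * j + 3) Y) = D at hm ⊢
    generalize hss : min (a + 3 * j + 3) Y = s at ht2 hm ⊢
    have ht0 : 60 ≤ a + 3 * j := by omega
    generalize ht : a + 3 * j = t at ht0 ht1 ht2 hm ⊢
    have tR : (60 : ℝ) ≤ t := by exact_mod_cast ht0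
    have t0 : (0 : ℝ) < t := by linarith
    have tsR : (t : ℝ) < s := by exact_mod_cast ht2
    have tYR : (t : ℝ) < Y := by exact_mod_cast ht1
    have hpos : 0 ≤ 1 - (t : ℝ) / Y := by
      rw [sub_nonneg, div_le_one hY0]
      exact tYR.le
    have f1 : ∑ p ∈ Bl (t * w) (s * w), 2 / (p : ℝ) * wH (Y * w) p ≤
        (1 - (t : ℝ) / Y) * sig (t * w) (s * w) := by
      unfold sig
      rw [Finset.mul_sum]
      refine Finset.sum_le_sum fun p hp => ?_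
      rw [mul_comm]
      exact mul_le_mul_of_nonneg_right (CHF_wH hSAD w t s Y p (by omega) (by omega) hp)
        (by positivity)
    have g2 : 180 ≤ t * w := by
      calc 180 ≤ 60 * 2 ^ 15 := by norm_num
        _ ≤ t * w := Nat.mul_le_mul ht0 hw
    have f2 := hSIG 1 (1090 / 1000) (by norm_num) (by norm_num) hLPM (t * w) (s * w) g2
      (Nat.mul_le_mul_right w ht2.le)
    have e6 : (((s * w : ℕ) : ℝ) / ((t * w : ℕ) : ℝ)) = (s : ℝ) / t := by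
      push_cast
      exact mul_div_mul_right _ _ hw0.ne'
    rw [e6] at f2
    have e8 : (60 : ℝ) * 2 ^ 15 ≤ ((t * w : ℕ) : ℝ) := by
      push_cast
      exact mul_le_mul tR hwR (by norm_num) t0.le
    have e9 := CHF_small _ e8
    have e10 := CHF_log t s t0 tsR.le
    have f3 : sig (t * w) (s * w) ≤ 2 * (((s : ℝ) ^ 2 - (t : ℝ) ^ 2) / (2 * t * s) + 1 / 100000) := by
      linarith
    calc (D : ℝ) / 2 ^ 40 * ∑ p ∈ Bl (t * w) (s * w), 2 / (p : ℝ) * wH (Y * w) p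
        ≤ (D : ℝ) / 2 ^ 40 * ((1 - (t : ℝ) / Y) *
          (2 * (((s : ℝ) ^ 2 - (t : ℝ) ^ 2) / (2 * t * s) + 1 / 100000))) := by
          refine mul_le_mul_of_nonneg_left (f1.trans ?_) (by positivity)
          exact mul_le_mul_of_nonneg_left f3 hpos
      _ = 2 * (((((s : ℝ) ^ 2 - (t : ℝ) ^ 2) / (2 * t * s) + 1 / 100000) *
          (1 - (t : ℝ) / Y) * D) / 2 ^ 40) := by ring
      _ ≤ 2 * ((m2t U a Y B j : ℝ) / 2 ^ 40) := by
          refine mul_le_mul_of_nonneg_left ?_ (by norm_num)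
          exact div_le_div_of_nonneg_right hm (by positivity)
  have hBS : BS w a Y B U ≤ 2 * ((lam : ℝ) / 10 ^ 9 - 1 + (a : ℝ) / Y + 1 / 10 ^ 4 + (s : ℝ) / 2 ^ 40) := by
    have g1 : BS w a Y B U = ∑ j ∈ range n, ∑ p ∈ Bl ((a + 3 * j) * w) (min (a + 3 * j + 3) Y * w),
        2 / (p : ℝ) * wH (Y * w) p + ∑ j ∈ range n, (dig U (B - min (a + 3 * j + 3) Y) : ℝ) / 2 ^ 40 *
      ∑ p ∈ Bl ((a + 3 * j) * w) (min (a + 3 * j + 3) Y * w), 2 / (p : ℝ) * wH (Y * w) p := by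
      rw [← Finset.sum_add_distrib]
      unfold BS
      refine Finset.sum_congr rfl fun j _ => ?_
      ring
    have g2 := Finset.sum_le_sum hV
    have g3 : ∑ j ∈ range n, 2 * ((m2t U a Y B j : ℝ) / 2 ^ 40) = 2 * ((s : ℝ) / 2 ^ 40) := by
      rw [← Finset.mul_sum, ← Finset.sum_div, hs]
      push_cast
      rfl
    rw [g1]
    linarith
  -- conclusion
  have h5 : (1000 : ℝ) * ((dig L B : ℝ) * bn * 10 ^ 9 * Y
        + 2 * bd * (((lam : ℝ) * Y + 10 ^ 9 * a + 10 ^ 5 * Y) * 2 ^ 40 + s * 10 ^ 9 * Y)) ≤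
      995 * bn * 10 ^ 9 * Y * 2 ^ 40 + 2000 * bd * 10 ^ 9 * Y * 2 ^ 40 := by exact_mod_cast h4
  have h6 : 1 / ((bn : ℝ) / bd) = (bd : ℝ) / bn := by rw [one_div_div]
  rw [h6]
  have h7 : (bd : ℝ) / bn * BS w a Y B U ≤ (bd : ℝ) / bn *
      (2 * ((lam : ℝ) / 10 ^ 9 - 1 + (a : ℝ) / Y + 1 / 10 ^ 4 + (s : ℝ) / 2 ^ 40)) :=
    mul_le_mul_of_nonneg_left hBS (by positivity)
  have h8 : (dig L B : ℝ) / 2 ^ 40 + (bd : ℝ) / bn *
      (2 * ((lam : ℝ) / 10 ^ 9 - 1 + (a : ℝ) / Y + 1 / 10 ^ 4 + (s : ℝ) / 2 ^ 40)) ≤ 995 / 1000 := by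
    have h9 : (dig L B : ℝ) / 2 ^ 40 + (bd : ℝ) / bn *
      (2 * ((lam : ℝ) / 10 ^ 9 - 1 + (a : ℝ) / Y + 1 / 10 ^ 4 + (s : ℝ) / 2 ^ 40)) =
      ((1000 : ℝ) * ((dig L B : ℝ) * bn * 10 ^ 9 * Y
        + 2 * bd * (((lam : ℝ) * Y + 10 ^ 9 * a + 10 ^ 5 * Y) * 2 ^ 40 + s * 10 ^ 9 * Y)) -
        2000 * bd * 10 ^ 9 * Y * 2 ^ 40) / (1000 * bn * 10 ^ 9 * Y * 2 ^ 40) := by
      field_simp
      ring
    rw [h9, div_le_div_iff₀ (by positivity) (by norm_num)]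
    nlinarith
  linarith

end Pool.Agent.SY
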